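import Pool.Agent.W932.RO.Stm

/-!
# RO-POS: the positions are different
-/

set_option autoImplicit false

namespace Pool.Agent.W382.RO.POS

open Finset MeasureTheory Pool.Agent.NPC H568R2 Pool.Agent.H676
open Pool.Agent.H620R2.Gauge Pool.Agent.H591R3.PHG Pool.Agent.W911.AL Pool.Agent.W932.RO

/-- the string of a node is the string of the root followed by a string which does not depend on
the string of the root -/
theorem addr_root (as : List ℕ) (i : Idx Unit (pw as)) : ∃ c : List Bool, ∀ r : List Bool,
    addr (fun _ : Unit => r) as i = r ++ c := by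
  induction as with
  | nil => exact ⟨[], fun r => (List.append_nil r).symm⟩
  | cons a as ih =>
    have key : ∀ (g : Idx Unit (pw as)) (j : Fin (2 ^ a)), ∃ c : List Bool, ∀ r : List Bool,
        addr (fun _ : Unit => r) as g ++ bitsOf a j.val = r ++ c := by
      intro g j
      obtain ⟨c, hc⟩ := ih g
      exact ⟨c ++ bitsOf a j.val, fun r => by rw [hc, List.append_assoc]⟩
    exact key i.1 i.2

theorem lf_root (as : List ℕ) (w : ℕ) (i : Idx Unit (w :: pw as)) : ∃ c : List Bool,
    ∀ r : List Bool, lf as w r i = r ++ c := by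
  obtain ⟨c, hc⟩ := addr_root as i.1
  refine ⟨c ++ List.replicate i.2.val true, fun r => ?_⟩
  unfold lf
  rw [hc, List.append_assoc]

theorem lf_inj (as : List ℕ) (w : ℕ) {r r' : List Bool} (hr : r.length = r'.length)
    {i i' : Idx Unit (w :: pw as)} (h : lf as w r i = lf as w r' i') : r = r' ∧ i = i' := by
  obtain ⟨c, hc⟩ := lf_root as w i
  obtain ⟨c', hc'⟩ := lf_root as w i'
  have h1 : r = r' := by
    have h2 := h
    rw [hc, hc'] at h2
    exact (List.append_inj h2 hr).1
  subst h1
  refine ⟨rfl, ?_⟩
  exact leaf_inj (fun _ : Unit => r) (fun _ _ _ => rfl) r.length (fun _ => rfl) as w h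

theorem root_length (x : List Bool) (μ s y g : ℕ) :
    (x ++ bitsOf μ y ++ bitsOf s g).length = x.length + μ + s := by
  rw [List.length_append, List.length_append, length_bitsOf, length_bitsOf]

theorem main : StmPos := by
  intro x μ s as w
  constructor
  · rintro ⟨y, g, i⟩ ⟨y', g', i'⟩ h
    have h1 : lf as w (x ++ bitsOf μ y.val ++ bitsOf s g.val) i =
        lf as w (x ++ bitsOf μ y'.val ++ bitsOf s g'.val) i' := h
    obtain ⟨h2, h3⟩ := lf_inj as w (by rw [root_length, root_length]) h1
    have h4 := List.append_inj h2 (by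
      rw [List.length_append, List.length_append, length_bitsOf, length_bitsOf])
    have h5 := List.append_cancel_left h4.1
    have e1 : y = y' := Fin.ext (bitsOf_inj y.2 y'.2 h5)
    have e2 : g = g' := Fin.ext (bitsOf_inj g.2 g'.2 h4.2)
    rw [e1, e2, h3]
  · rintro ⟨y, g, i⟩
    change x.length + μ + s ≤ (lf as w (x ++ bitsOf μ y.val ++ bitsOf s g.val) i).length
    obtain ⟨c, hc⟩ := lf_root as w i
    rw [hc, List.length_append, root_length]
    omega

end Pool.Agent.W382.RO.POS
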